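import Pool.Agent.H70.NT.I
import Pool.Agent.H89.NT.Limit

set_option autoImplicit false

namespace Pool.Agent.H70.NT

open Pool.Agent.H35.NT (Maln St StepStmt limit_of_step)
open SemidirectProduct

/-- the starting state -/
noncomputable def S0 : St VV tt where
  A := PUnit
  H := VV × Multiplicative ℤ
  gA := inferInstance
  gH := inferInstance
  ι := 1
  α := fun _ _ _ => 1
  ν := MonoidHom.fst _ _
  c := (1, Multiplicative.ofAdd 1)
  ι_inj := fun a b _ => Subsingleton.elim a b
  α_inj := fun _ _ _ a b _ => Subsingleton.elim a b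
  ι_maln := by
    rintro g d ⟨x, rfl⟩ hd
    exact absurd rfl hd
  α_maln := by
    rintro l s k g d ⟨x, rfl⟩ hd
    exact absurd rfl hd
  fpf := fun _ _ _ _ _ _ => ⟨Subsingleton.elim _ _, Subsingleton.elim _ _⟩
  law := fun x hx => absurd (Subsingleton.elim x 1) hx
  ν_α := fun l s k a => by simp
  ν_c := rfl

theorem exists_cov (step : StepStmt) :
    ∃ (G : Type) (_ : Group G) (t : Bool → Bool → Fin 3 → G) (c c0 : G), Cov t c c0 ∧
      ∃ π : G →* FreeGroup JJ, ∀ l s k, π (t l s k) = FreeGroup.of (l, s, k) := by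
  obtain ⟨L, gL, θ, ν, η, hη, h1, h2, h3⟩ := limit_of_step step VV_sq tt S0
  refine ⟨L ⋊[act θ] FreeGroup JJ, inferInstance, fun l s k => inr (FreeGroup.of (l, s, k)),
    inl (η S0.c), inl (η ((vv, 1) : VV × Multiplicative ℤ)),
    cov_of_law θ ν _ _ ?_ ?_ h2 h3, rightHom, fun l s k => by simp⟩
  · intro h
    have h4 : S0.c = 1 := hη (by rw [h, map_one])
    have h5 : ((1, Multiplicative.ofAdd 1) : VV × Multiplicative ℤ) = 1 := h4
    have h6 := congrArg (fun p : VV × Multiplicative ℤ => Multiplicative.toAdd p.2) h5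
    simp at h6
  · exact (h1 ((vv, 1) : VV × Multiplicative ℤ)).trans rfl

/-- a finitely generated infinite group with the covering law -/
theorem exists_fg_ad (step : StepStmt) :
    ∃ (G : Type) (_ : Group G), Group.FG G ∧ Infinite G ∧ AD G := by
  obtain ⟨G, _, t, c, c0, hcov, π, hπ⟩ := exists_cov step
  let S : Set G := Set.range (fun j : Bool × Bool × Fin 3 => t j.1 j.2.1 j.2.2) ∪ {c, c0}
  have hS : S.Finite := (Set.finite_range _).union (Set.toFinite _)
  let K : Subgroup G := Subgroup.closure S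
  have ht : ∀ l s k, t l s k ∈ K := fun l s k => Subgroup.subset_closure (Or.inl ⟨(l, s, k), rfl⟩)
  have hc : c ∈ K := Subgroup.subset_closure (Or.inr (Or.inl rfl))
  have hc0 : c0 ∈ K := Subgroup.subset_closure (Or.inr (Or.inr rfl))
  refine ⟨K, inferInstance, ?_, ?_, (hcov.subgroup K ht hc hc0).ad⟩
  · rw [Group.fg_iff_subgroup_fg]
    exact ⟨hS.toFinset, by simp [K]⟩
  · have hsurj : Function.Surjective (π.comp K.subtype) := by
      rw [← MonoidHom.range_eq_top, eq_top_iff, ← FreeGroup.closure_range_of,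
        Subgroup.closure_le]
      rintro _ ⟨⟨l, s, k⟩, rfl⟩
      exact ⟨⟨t l s k, ht l s k⟩, hπ l s k⟩
    exact Infinite.of_surjective _ hsurj

/-- the wreath product of a finitely generated group is finitely generated -/
theorem fg_wr (G : Type) [Group G] (h : Group.FG G) : Group.FG (Wr G) := by
  rw [Group.fg_iff] at h ⊢
  obtain ⟨S, hS, hfin⟩ := h
  refine ⟨(fun x : G => (inl (Pi.mulSingle 0 x) : Wr G)) '' S ∪
    Set.range (fun σ : Equiv.Perm (Fin 7) => (inr σ : Wr G)), ?_,
    (hfin.image _).union (Set.finite_range _)⟩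
  set K := Subgroup.closure ((fun x : G => (inl (Pi.mulSingle 0 x) : Wr G)) '' S ∪
    Set.range (fun σ : Equiv.Perm (Fin 7) => (inr σ : Wr G))) with hK
  have hr : ∀ σ : Equiv.Perm (Fin 7), (inr σ : Wr G) ∈ K := fun σ =>
    Subgroup.subset_closure (Or.inr ⟨σ, rfl⟩)
  have h0 : ∀ x : G, (inl (Pi.mulSingle 0 x) : Wr G) ∈ K := by
    have : (⊤ : Subgroup G) ≤ K.comap ((inl : (Fin 7 → G) →* Wr G).comp
        (MonoidHom.mulSingle (fun _ : Fin 7 => G) 0)) := by
      rw [← hS, Subgroup.closure_le]
      intro x hx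
      exact Subgroup.subset_closure (Or.inl ⟨x, hx, rfl⟩)
    intro x
    exact this (Subgroup.mem_top x)
  have hi : ∀ (i : Fin 7) (x : G), (inl (Pi.mulSingle i x) : Wr G) ∈ K := by
    intro i x
    have h1 : (inr (Equiv.swap 0 i) * inl (Pi.mulSingle 0 x) * (inr (Equiv.swap 0 i))⁻¹ : Wr G) =
        inl (Pi.mulSingle i x) := by
      rw [conj_inr]
      congr 1
      funext j
      rw [Equiv.swap_inv]
      by_cases hj : j = i
      · subst hj; simp
      · rw [Pi.mulSingle_eq_of_ne hj]
        apply Pi.mulSingle_eq_of_ne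
        intro h2
        apply hj
        have := congrArg (Equiv.swap 0 i) h2
        simpa using this
    rw [← h1]
    exact K.mul_mem (K.mul_mem (hr _) (h0 x)) (K.inv_mem (hr _))
  have hl : ∀ v : Fin 7 → G, (inl v : Wr G) ∈ K := by
    intro v
    have : (⊤ : Subgroup (Fin 7 → G)) ≤ K.comap (inl : (Fin 7 → G) →* Wr G) := by
      intro v _
      exact Subgroup.pi_mem_of_mulSingle_mem v (fun i => hi i (v i))
    exact this (Subgroup.mem_top v)
  rw [eq_top_iff]
  intro X _
  rw [← inl_left_mul_inr_right X]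
  exact K.mul_mem (hl _) (hr _)

/-- **Main theorem** (conditional on the step, for the moment) -/
theorem final_of_step (step : StepStmt) :
    ∃ (W : Type) (_ : Group W), Infinite W ∧ Group.FG W ∧
      ∀ t : TopologicalSpace W, @IsSemiTop W _ t → @T1Space W t → @DiscreteTopology W t := by
  obtain ⟨G, _, hfg, hinf, had⟩ := exists_fg_ad step
  refine ⟨Wr G, inferInstance, infinite_wr G, fg_wr G hfg, fun t ht h1 => ?_⟩
  exact discrete_of_AD ht had

end Pool.Agent.H70.NT
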