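import Pool.Agent.H35.NT.Defs
import Pool.Agent.H70.NT.Wreath

set_option autoImplicit false

namespace Pool.Agent.H70.NT


/-! ## Module I: the law and the final group -/

section Law

variable {G : Type} [Group G]

/-- the word of the law -/
def lw (t : Bool → Bool → Fin 3 → G) (c : G) (l : Bool) (y : G) : G :=
  (t l true 0 * y * (t l true 0)⁻¹ * (t l true 1 * y * (t l true 1)⁻¹) *
    (t l true 2 * y * (t l true 2)⁻¹)) ^ 2 *
  ((t l false 0 * y * (t l false 0)⁻¹ * (t l false 1 * y * (t l false 1)⁻¹) *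
    (t l false 2 * y * (t l false 2)⁻¹)) ^ 2)⁻¹ * c⁻¹

theorem isPoly_inv {f : G → G} (hf : IsPoly f) : IsPoly (fun x => (f x)⁻¹) := by
  induction hf with
  | const a => exact IsPoly.const a⁻¹
  | @mulX g a h ih =>
    have : (fun x => (g x * x * a)⁻¹) = fun x => a⁻¹ * x⁻¹ * 1 * (g x)⁻¹ := by
      funext x; simp [mul_assoc]
    rw [this]
    exact ((IsPoly.const a⁻¹).mulXinv 1).mul ih
  | @mulXinv g a h ih =>
    have : (fun x => (g x * x⁻¹ * a)⁻¹) = fun x => a⁻¹ * x * 1 * (g x)⁻¹ := by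
      funext x; simp [mul_assoc]
    rw [this]
    exact ((IsPoly.const a⁻¹).mulX 1).mul ih

theorem isPoly_conj {f : G → G} (hf : IsPoly f) (t : G) : IsPoly (fun x => t * f x * t⁻¹) :=
  ((IsPoly.const t).mul hf).mul (IsPoly.const t⁻¹)

theorem isPoly_sq {f : G → G} (hf : IsPoly f) : IsPoly (fun x => (f x) ^ 2) := by
  have : (fun x => (f x) ^ 2) = fun x => f x * f x := by funext x; rw [pow_two]
  rw [this]; exact hf.mul hf

theorem lw_isPoly (t : Bool → Bool → Fin 3 → G) (c : G) (l : Bool) {f : G → G} (hf : IsPoly f) :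
    IsPoly (fun y => lw t c l (f y)) := by
  unfold lw
  refine ((isPoly_sq ?_).mul (isPoly_inv (isPoly_sq ?_))).mul (IsPoly.const c⁻¹)
  · exact ((isPoly_conj hf _).mul (isPoly_conj hf _)).mul (isPoly_conj hf _)
  · exact ((isPoly_conj hf _).mul (isPoly_conj hf _)).mul (isPoly_conj hf _)

theorem lw_one (t : Bool → Bool → Fin 3 → G) (c : G) (l : Bool) : lw t c l 1 = c⁻¹ := by
  simp [lw]

/-- the property used: the law covers everything -/
def Cov (t : Bool → Bool → Fin 3 → G) (c c0 : G) : Prop :=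
  c ≠ 1 ∧ ∀ y : G, y ≠ 1 → ∃ l, lw t c l y = 1 ∨ lw t c l (y * c0 * y⁻¹ * c0⁻¹) = 1

theorem Cov.ad {t : Bool → Bool → Fin 3 → G} {c c0 : G} (h : Cov t c c0) : AD G := by
  obtain ⟨hc, h⟩ := h
  have hcm : IsPoly (fun y : G => y * c0 * y⁻¹ * c0⁻¹) := by
    have h1 : IsPoly (fun y : G => y * c0) := IsPoly.id.mul (IsPoly.const c0)
    exact h1.mulXinv c0⁻¹
  refine ⟨Set.range (fun l => lw t c l) ∪
    Set.range (fun l => fun y => lw t c l (y * c0 * y⁻¹ * c0⁻¹)), ?_, ?_, ?_⟩
  · exact (Set.finite_range _).union (Set.finite_range _)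
  · rintro f (⟨l, rfl⟩ | ⟨l, rfl⟩)
    · exact ⟨lw_isPoly t c l IsPoly.id, by simpa [lw_one] using hc⟩
    · exact ⟨lw_isPoly t c l hcm, by simpa [lw_one] using hc⟩
  · intro y hy
    obtain ⟨l, hl | hl⟩ := h y hy
    · exact ⟨_, Or.inl ⟨l, rfl⟩, hl⟩
    · exact ⟨_, Or.inr ⟨l, rfl⟩, hl⟩

/-- passing to the subgroup generated by the coefficients -/
theorem Cov.subgroup {t : Bool → Bool → Fin 3 → G} {c c0 : G} (h : Cov t c c0) (K : Subgroup G)
    (ht : ∀ l s k, t l s k ∈ K) (hc : c ∈ K) (hc0 : c0 ∈ K) :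
    Cov (G := K) (fun l s k => ⟨t l s k, ht l s k⟩) ⟨c, hc⟩ ⟨c0, hc0⟩ := by
  obtain ⟨h1, h2⟩ := h
  refine ⟨fun h => h1 (congrArg Subtype.val h), fun y hy => ?_⟩
  obtain ⟨l, hl⟩ := h2 y.1 (fun h => hy (Subtype.ext h))
  refine ⟨l, ?_⟩
  rcases hl with hl | hl
  · left; exact Subtype.ext hl
  · right; exact Subtype.ext hl

end Law

/-! ### The starting state -/

/-- letters -/
abbrev JJ : Type := Bool × Bool × Fin 3

/-- the elementary abelian group -/
abbrev VV : Type := FreeGroup JJ → Multiplicative (ZMod 2)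

/-- translations -/
def tt (l s : Bool) (k : Fin 3) : VV ≃* VV :=
  (mulAutArrow : FreeGroup JJ →* MulAut VV) (FreeGroup.of (l, s, k))

theorem VV_sq (v : VV) : v ^ 2 = 1 := by
  funext x
  have : ∀ a : Multiplicative (ZMod 2), a ^ 2 = 1 := by decide
  exact this _

theorem tt_eq (l s : Bool) (k : Fin 3) (v : VV) (x : FreeGroup JJ) :
    tt l s k v x = v ((FreeGroup.of (l, s, k))⁻¹ * x) := rfl

theorem arrow_eq (g : FreeGroup JJ) (v : VV) (x : FreeGroup JJ) :
    (mulAutArrow : FreeGroup JJ →* MulAut VV) g v x = v (g⁻¹ * x) := rfl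

/-- the test function -/
def vv : VV := Pi.mulSingle 1 (Multiplicative.ofAdd 1)

theorem vv_moved (g : FreeGroup JJ) (hg : g ≠ 1) :
    (mulAutArrow : FreeGroup JJ →* MulAut VV) g vv ≠ vv := by
  intro h
  have := congrFun h 1
  rw [arrow_eq] at this
  have h1 : g⁻¹ * 1 ≠ (1 : FreeGroup JJ) := by simpa using hg
  rw [vv, Pi.mulSingle_eq_of_ne h1, Pi.mulSingle_eq_same] at this
  revert this
  decide

section Final

variable {L : Type} [Group L] (θ : Bool → Bool → Fin 3 → L ≃* L) (ν : L →* VV)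

/-- the action of the free group -/
def act : FreeGroup JJ →* MulAut L :=
  FreeGroup.lift fun j => θ j.1 j.2.1 j.2.2

theorem ν_act (h : ∀ l s k x, ν (θ l s k x) = tt l s k (ν x)) (g : FreeGroup JJ) (x : L) :
    ν (act θ g x) = (mulAutArrow : FreeGroup JJ →* MulAut VV) g (ν x) := by
  have key : ∀ g : FreeGroup JJ, ∀ x : L,
      ν (act θ g x) = (mulAutArrow : FreeGroup JJ →* MulAut VV) g (ν x) := by
    intro g
    induction g using FreeGroup.induction_on with
    | C1 => intro x; simp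
    | of j =>
      intro x
      obtain ⟨l, s, k⟩ := j
      have : act θ (FreeGroup.of (l, s, k)) = θ l s k := by simp [act]
      rw [this]
      exact h l s k x
    | inv_of j ih =>
      intro x
      have h1 := ih ((act θ (FreeGroup.of j))⁻¹ x)
      have e1 : act θ (FreeGroup.of j)⁻¹ = (act θ (FreeGroup.of j))⁻¹ := map_inv _ _
      have e2 : (mulAutArrow : FreeGroup JJ →* MulAut VV) (FreeGroup.of j)⁻¹ =
        ((mulAutArrow : FreeGroup JJ →* MulAut VV) (FreeGroup.of j))⁻¹ := map_inv _ _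
      rw [e1, e2]
      apply ((mulAutArrow : FreeGroup JJ →* MulAut VV) (FreeGroup.of j)).injective
      rw [← h1, MulAut.apply_inv_self, MulAut.apply_inv_self]
    | mul a b ha hb =>
      intro x
      rw [map_mul, map_mul, MulAut.mul_apply, MulAut.mul_apply, ha, hb]
  exact key g x

open SemidirectProduct in
theorem cov_of_law (c c0 : L) (hc : c ≠ 1) (hc0 : ν c0 = vv)
    (h : ∀ l s k x, ν (θ l s k x) = tt l s k (ν x))
    (hlaw : ∀ x : L, x ≠ 1 → ∃ l, (θ l true 0 x * θ l true 1 x * θ l true 2 x) ^ 2 =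
        c * (θ l false 0 x * θ l false 1 x * θ l false 2 x) ^ 2) :
    Cov (G := L ⋊[act θ] FreeGroup JJ) (fun l s k => inr (FreeGroup.of (l, s, k)))
      (inl c) (inl c0) := by
  have hconj : ∀ (l s : Bool) (k : Fin 3) (x : L),
      (inr (FreeGroup.of (l, s, k)) * inl x * (inr (FreeGroup.of (l, s, k)))⁻¹ :
        L ⋊[act θ] FreeGroup JJ) = inl (θ l s k x) := by
    intro l s k x
    have : act θ (FreeGroup.of (l, s, k)) = θ l s k := by simp [act]
    rw [← this, inl_aut]
    simp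
  have hL : ∀ x : L, x ≠ 1 → ∃ l, lw (fun l s k => (inr (FreeGroup.of (l, s, k)) :
      L ⋊[act θ] FreeGroup JJ)) (inl c) l (inl x) = 1 := by
    intro x hx
    obtain ⟨l, hl⟩ := hlaw x hx
    refine ⟨l, ?_⟩
    unfold lw
    simp only [hconj]
    simp only [← map_mul, ← map_pow, ← map_inv]
    rw [hl]
    simp only [mul_inv_cancel_right, mul_inv_cancel, map_one]
  refine ⟨fun h1 => hc (inl_injective (by simpa using h1)), fun y hy => ?_⟩
  by_cases hr : y.right = 1
  · have hy' : y = inl y.left := by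
      apply SemidirectProduct.ext <;> simp [hr]
    obtain ⟨l, hl⟩ := hL y.left (fun h2 => hy (by rw [hy', h2, map_one]))
    exact ⟨l, Or.inl (by rw [hy']; exact hl)⟩
  · have hy' : y = inl y.left * inr y.right := (inl_left_mul_inr_right y).symm
    have hz : y * inl c0 * y⁻¹ * (inl c0)⁻¹ =
        inl (y.left * act θ y.right c0 * y.left⁻¹ * c0⁻¹) := by
      conv_lhs => rw [hy']
      rw [map_mul, map_mul, map_mul, inl_aut, map_inv, map_inv, map_inv]
      group
    have hne : y.left * act θ y.right c0 * y.left⁻¹ * c0⁻¹ ≠ 1 := by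
      intro h1
      have h2 := congrArg ν h1
      rw [map_mul, map_mul, map_mul, map_inv, map_inv, map_one, ν_act θ ν h, hc0] at h2
      apply vv_moved y.right hr
      rw [mul_inv_eq_one, mul_comm (ν y.left), mul_inv_cancel_right] at h2
      exact h2
    obtain ⟨l, hl⟩ := hL _ hne
    exact ⟨l, Or.inr (by rw [hz]; exact hl)⟩

end Final

end Pool.Agent.H70.NT
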